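import Pool.Agent.H41.ET.Defs

set_option autoImplicit false

/-!
# Compatible Euler tours: a good relabelling exists
-/

namespace Pool.Agent.H224.ET

open Pool.Agent.H41.ET

/-- the union bound -/
theorem union_bound {P ι : Type} [Finite P] [Fintype ι] (B : ι → Set P) (q r F n : ℕ)
    (hq : 0 < q) (hB : ∀ i, (B i).ncard * q ≤ r * F) (hn : Fintype.card ι ≤ n)
    (h4 : 4 * n * r ≤ q) : 4 * (⋃ i, B i).ncard ≤ F := by
  have h1 : (⋃ i, B i).ncard ≤ ∑ i, (B i).ncard := by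
    have h2 : (⋃ i, B i) = ⋃ i ∈ (Finset.univ : Finset ι), B i := by simp
    rw [h2]
    exact Finset.set_ncard_biUnion_le _ _
  have h3 : (∑ i, (B i).ncard) * q ≤ n * (r * F) := by
    rw [Finset.sum_mul]
    calc ∑ i, (B i).ncard * q ≤ ∑ _i : ι, r * F := Finset.sum_le_sum fun i _ => hB i
      _ = Fintype.card ι * (r * F) := by
          rw [Finset.sum_const, Finset.card_univ, smul_eq_mul]
      _ ≤ n * (r * F) := Nat.mul_le_mul_right _ hn
  have h5 : (4 * (⋃ i, B i).ncard) * q ≤ F * q := by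
    calc (4 * (⋃ i, B i).ncard) * q ≤ 4 * ((∑ i, (B i).ncard) * q) := by
          rw [mul_assoc]
          exact Nat.mul_le_mul_left _ (Nat.mul_le_mul_right _ h1)
      _ ≤ 4 * (n * (r * F)) := Nat.mul_le_mul_left _ h3
      _ = (4 * n * r) * F := by ring
      _ ≤ q * F := Nat.mul_le_mul_right _ h4
      _ = F * q := mul_comm _ _
  exact Nat.le_of_mul_le_mul_right h5 hq

theorem pi (hgk : S_GK) (ha : S_CNTA) (hb : S_CNTB) (hc : S_CNTC) (hg : S_GRP) : S_PI := by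
  intro d c m g θ h S hd hm i1 i2 i3 i4 i5 V _ _ hV O hO
  have : NeZero (2 * d - 1) := ⟨by omega⟩
  have hcZ : Fintype.card (ZMod (2 * d - 1)) = 2 * d - 1 := ZMod.card _
  have hcW : Fintype.card (Option (ZMod (2 * d - 1))) = 2 * d := by
    rw [Fintype.card_option, hcZ]
    omega
  obtain ⟨hI, hinj⟩ := hgk d hd
  have e0 : V ≃ Option (ZMod (2 * d - 1)) := Fintype.equivOfCardEq (by rw [hV, hcW])
  have hO' : ∀ j, Inv0 (cj e0 (O j)) := by
    intro j
    refine ⟨fun x => ?_, fun x hx => ?_⟩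
    · simp [cj, (hO j).1]
    · have h1 := congrArg e0.symm hx
      simp only [cj, Equiv.symm_apply_apply] at h1
      exact (hO j).2 _ h1
  generalize hOd : (fun j => cj e0 (O j)) = O' at hO'
  have hOj : ∀ j, cj e0 (O j) = O' j := fun j => by rw [← hOd]
  replace hO' : ∀ j, Inv0 (O' j) := fun j => hOj j ▸ hO' j
  -- the groups
  have hgrp : ∀ (t x : ZMod (2 * d - 1)), ∃ G : Fin θ → Finset (Option (ZMod (2 * d - 1))),
      (∀ i, ∀ w ∈ G i, (∃ s, s ∈ S ∧ 2 * t - s ∈ S ∧ w = some (s - x)) ∧ gk d t w ∉ G i) ∧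
      (∀ i, (G i).card = g) ∧ ∀ i j, i ≠ j → Disjoint (G i) (G j) := by
    intro t x
    refine hg (Option (ZMod (2 * d - 1))) (gk d t)
      {w | ∃ s, s ∈ S ∧ 2 * t - s ∈ S ∧ w = some (s - x)} θ g (hI t) ?_
    refine (i5 (2 * t)).trans ?_
    have h1 : {w : Option (ZMod (2 * d - 1)) | ∃ s, s ∈ S ∧ 2 * t - s ∈ S ∧ w = some (s - x)} =
        (fun s => some (s - x)) '' {s | s ∈ S ∧ 2 * t - s ∈ S} := by
      ext w
      constructor
      · rintro ⟨s, h1, h2, h3⟩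
        exact ⟨s, ⟨h1, h2⟩, h3.symm⟩
      · rintro ⟨s, ⟨h1, h2⟩, h3⟩
        exact ⟨s, h1, h2, h3.symm⟩
    rw [h1, Set.ncard_image_of_injective]
    intro a b hab
    simpa using hab
  choose G hG1 hG2 hG3 using hgrp
  -- the three bad events
  have hA : 4 * (⋃ i : ZMod (2 * d - 1) × Fin c,
      {p : Equiv.Perm (Option (ZMod (2 * d - 1))) | ¬ Few (gk d i.1) (cj p (O' i.2)) m}).ncard ≤
        (2 * d).factorial := by
    refine union_bound _ (2 ^ (m + 1)) (d + 1) _ (2 * d * c) (by positivity)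
      (fun i => ha d m _ (gk d i.1) (O' i.2) hcW (hI _) (hO' _)) ?_ ?_
    · rw [Fintype.card_prod, hcZ, Fintype.card_fin]
      exact Nat.mul_le_mul_right _ (by omega)
    · refine le_trans (le_of_eq ?_) i1
      ring
  have hB : 4 * (⋃ i : ZMod (2 * d - 1) × Fin c × ZMod (2 * d - 1) × Fin θ,
      {p : Equiv.Perm (Option (ZMod (2 * d - 1))) | ∃ Z : Set (Option (ZMod (2 * d - 1))),
        Cl (gk d i.1) (cj p (O' i.2.1)) Z ∧ 2 * d ≤ m * Z.ncard ∧
          ∀ x ∈ G i.1 i.2.2.1 i.2.2.2, x ∉ Z}).ncard ≤ (2 * d).factorial := by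
    refine union_bound _ (m ^ g) ((d + 1) * (m - 1) ^ g) _ (2 * d * (c * (2 * d * θ)))
      (pow_pos hm _) (fun i => ?_) ?_ ?_
    · have h1 := hb d m _ (gk d i.1) (O' i.2.1) (G i.1 i.2.2.1 i.2.2.2) hcW hm (hI _) (hO' _)
        (fun x hx => (hG1 _ _ _ x hx).2)
      rw [hG2] at h1
      exact h1
    · rw [Fintype.card_prod, Fintype.card_prod, Fintype.card_prod, hcZ, Fintype.card_fin,
        Fintype.card_fin]
      exact Nat.mul_le_mul (by omega) (Nat.mul_le_mul_left _ (Nat.mul_le_mul_right _ (by omega)))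
    · refine le_trans (le_of_eq ?_) i2
      ring
  have hC : 4 * (⋃ i : Fin c × {q : Option (ZMod (2 * d - 1)) × Option (ZMod (2 * d - 1)) //
        q.1 ≠ q.2},
      {p : Equiv.Perm (Option (ZMod (2 * d - 1))) |
        2 * h ≤ {t | cj p (O' i.1) (gk d t i.2.1.1) = gk d t i.2.1.2}.ncard}).ncard ≤
        (2 * d).factorial := by
    refine union_bound _ h.factorial (2 ^ h) _ (c * (2 * d) ^ 2) (Nat.factorial_pos _)
      (fun i => ?_) ?_ ?_
    · refine hc d h (Option (ZMod (2 * d - 1))) (ZMod (2 * d - 1)) (O' i.1)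
        (fun t => gk d t i.2.1.1) (fun t => gk d t i.2.1.2) hcW (le_of_eq hcZ) (hO' _)
        (fun t s hts => hinj t s _ hts) (fun t s hts => hinj t s _ hts) (fun t ht => ?_) i4
      have h1 := congrArg (gk d t) ht
      simp only [(hI t).1] at h1
      exact i.2.2 h1
    · rw [Fintype.card_prod, Fintype.card_fin]
      refine Nat.mul_le_mul_left _ ?_
      refine (Fintype.card_subtype_le _).trans ?_
      rw [Fintype.card_prod, hcW, sq]
    · refine le_trans (le_of_eq ?_) i3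
      ring
  -- a good permutation
  have hex : ∃ p : Equiv.Perm (Option (ZMod (2 * d - 1))),
      p ∉ (⋃ i : ZMod (2 * d - 1) × Fin c,
        {p : Equiv.Perm (Option (ZMod (2 * d - 1))) | ¬ Few (gk d i.1) (cj p (O' i.2)) m}) ∪
      (⋃ i : ZMod (2 * d - 1) × Fin c × ZMod (2 * d - 1) × Fin θ,
      {p : Equiv.Perm (Option (ZMod (2 * d - 1))) | ∃ Z : Set (Option (ZMod (2 * d - 1))),
        Cl (gk d i.1) (cj p (O' i.2.1)) Z ∧ 2 * d ≤ m * Z.ncard ∧
          ∀ x ∈ G i.1 i.2.2.1 i.2.2.2, x ∉ Z}) ∪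
      (⋃ i : Fin c × {q : Option (ZMod (2 * d - 1)) × Option (ZMod (2 * d - 1)) // q.1 ≠ q.2},
      {p : Equiv.Perm (Option (ZMod (2 * d - 1))) |
        2 * h ≤ {t | cj p (O' i.1) (gk d t i.2.1.1) = gk d t i.2.1.2}.ncard}) := by
    by_contra hcon
    push Not at hcon
    have h1 := Set.eq_univ_of_forall hcon
    have h2 := congrArg Set.ncard h1
    rw [Set.ncard_univ, Nat.card_eq_fintype_card, Fintype.card_perm, hcW] at h2
    have h3 := Nat.factorial_pos (2 * d)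
    have h4 := (Set.ncard_union_le ((⋃ i : ZMod (2 * d - 1) × Fin c,
        {p : Equiv.Perm (Option (ZMod (2 * d - 1))) | ¬ Few (gk d i.1) (cj p (O' i.2)) m}) ∪
      (⋃ i : ZMod (2 * d - 1) × Fin c × ZMod (2 * d - 1) × Fin θ,
      {p : Equiv.Perm (Option (ZMod (2 * d - 1))) | ∃ Z : Set (Option (ZMod (2 * d - 1))),
        Cl (gk d i.1) (cj p (O' i.2.1)) Z ∧ 2 * d ≤ m * Z.ncard ∧
          ∀ x ∈ G i.1 i.2.2.1 i.2.2.2, x ∉ Z}))
      (⋃ i : Fin c × {q : Option (ZMod (2 * d - 1)) × Option (ZMod (2 * d - 1)) // q.1 ≠ q.2},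
      {p : Equiv.Perm (Option (ZMod (2 * d - 1))) |
        2 * h ≤ {t | cj p (O' i.1) (gk d t i.2.1.1) = gk d t i.2.1.2}.ncard}))
    have h5 := (Set.ncard_union_le (⋃ i : ZMod (2 * d - 1) × Fin c,
        {p : Equiv.Perm (Option (ZMod (2 * d - 1))) | ¬ Few (gk d i.1) (cj p (O' i.2)) m})
      (⋃ i : ZMod (2 * d - 1) × Fin c × ZMod (2 * d - 1) × Fin θ,
      {p : Equiv.Perm (Option (ZMod (2 * d - 1))) | ∃ Z : Set (Option (ZMod (2 * d - 1))),
        Cl (gk d i.1) (cj p (O' i.2.1)) Z ∧ 2 * d ≤ m * Z.ncard ∧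
          ∀ x ∈ G i.1 i.2.2.1 i.2.2.2, x ∉ Z}))
    omega
  obtain ⟨p, hp⟩ := hex
  simp only [Set.mem_union, Set.mem_iUnion, Set.mem_ofPred_eq, not_or, not_exists, not_not] at hp
  obtain ⟨⟨hp1, hp2⟩, hp3⟩ := hp
  refine ⟨e0.trans p, fun j => ?_⟩
  have hcj : cj (e0.trans p) (O j) = cj p (O' j) := by
    rw [← hOj j]
    rfl
  rw [hcj]
  refine ⟨fun t => hp1 (t, j), fun t _ Z hZ hZm x _ => ?_, fun x y hxy => ?_⟩
  · have h1 : ∀ i : Fin θ, ∃ w, w ∈ G t x i ∧ w ∈ Z := by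
      intro i
      by_contra hcon
      push Not at hcon
      exact hp2 (t, j, x, i) Z ⟨hZ, hZm, hcon⟩
    choose w hw1 hw2 using h1
    have h2 : ∀ i : Fin θ, ∃ s, s ∈ S ∧ 2 * t - s ∈ S ∧ w i = some (s - x) :=
      fun i => (hG1 t x i (w i) (hw1 i)).1
    choose s hs1 hs2 hs3 using h2
    have hsi : Function.Injective s := by
      intro i k hik
      by_contra hne
      have h3 : w i = w k := by rw [hs3 i, hs3 k, hik]
      exact Finset.disjoint_left.1 (hG3 t x i k hne) (hw1 i) (h3 ▸ hw1 k)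
    have h4 : (Set.range s).ncard = θ := by
      rw [← Set.image_univ, Set.ncard_image_of_injective _ hsi, Set.ncard_univ,
        Nat.card_eq_fintype_card, Fintype.card_fin]
    rw [← h4]
    refine Set.ncard_le_ncard ?_ (Set.toFinite _)
    rintro _ ⟨i, rfl⟩
    exact ⟨hs1 i, hs2 i, by rw [← hs3 i]; exact hw2 i⟩
  · have h1 := hp3 (j, ⟨(x, y), hxy⟩)
    exact (not_le.1 h1).le

end Pool.Agent.H224.ET
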